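import Mathlib
import Pool.Agent.helper85.PG.Spec2
import Pool.Agent.helper85.PG.Basic

/-!
# Small doubling and the Paley graph conjecture: module CB (case b)
-/

set_option autoImplicit false

namespace Pool.Agent.helper85.PG

open Module Pointwise

/-- the numerical core of case b -/
theorem CB_num (X U N1 N2 D K E G c1 c2 c3 c4 Y : ℝ) (hX : 0 < X) (hU : 1 ≤ U) (h1 : U ≤ N1)
    (h2 : U ≤ N2) (h12 : X * U ^ 2 ≤ (N1 * N2) ^ 2) (hD : 1 ≤ D) (hK : 0 ≤ K) (hE : 0 ≤ E)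
    (hG : 0 ≤ G) (hc1 : 1 ≤ c1) (hc2 : 1 ≤ c2) (hc3 : 1 ≤ c3) (hc4 : 1 ≤ c4)
    (hY : Y ≤ c1 * D ^ 2 * (K * ((c2 * (N1 * N2) / D) * N1 * (c3 * N2) +
      (1 + (c2 * (N1 * N2) / D) ^ 2 / X) * (N1 ^ 2 + N1 * (c3 * N2)))))
    (hc : 5 * (c1 * c4 * c2 ^ 2 * c3) * (K * E * G * D ^ 2) ≤ U ^ 2) :
    Y * (X * E) * (c4 * G) ≤ N1 ^ 4 * N2 ^ 4 := by
  have hN1 : 1 ≤ N1 := hU.trans h1
  have hN2 : 1 ≤ N2 := hU.trans h2
  have hN10 : 0 < N1 := by linarith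
  have hN20 : 0 < N2 := by linarith
  have hD0 : 0 < D := by linarith
  have hU0 : 0 < U := by linarith
  set c0 : ℝ := c1 * c4 * c2 ^ 2 * c3 with hc0
  set W : ℝ := K * E * G with hW
  have hW0 : 0 ≤ W := by positivity
  have hc10 : 0 < c1 := by linarith
  have hc20 : 0 < c2 := by linarith
  have hc30 : 0 < c3 := by linarith
  have hc40 : 0 < c4 := by linarith
  have e1 : Y * (X * E) * (c4 * G) ≤ (c1 * D ^ 2 * (K * ((c2 * (N1 * N2) / D) * N1 * (c3 * N2) +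
      (1 + (c2 * (N1 * N2) / D) ^ 2 / X) * (N1 ^ 2 + N1 * (c3 * N2))))) * (X * E) * (c4 * G) :=
    mul_le_mul_of_nonneg_right (mul_le_mul_of_nonneg_right hY (by positivity)) (by positivity)
  have e2 : (c1 * D ^ 2 * (K * ((c2 * (N1 * N2) / D) * N1 * (c3 * N2) +
      (1 + (c2 * (N1 * N2) / D) ^ 2 / X) * (N1 ^ 2 + N1 * (c3 * N2))))) * (X * E) * (c4 * G) =
      (c1 * c4 * c2 * c3) * (W * D) * (X * (N1 * N2) ^ 2) +
      (c1 * c4) * (W * D ^ 2) * (X * N1 ^ 2) +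
      (c1 * c4 * c3) * (W * D ^ 2) * (X * (N1 * N2)) +
      (c1 * c4 * c2 ^ 2) * W * (N1 ^ 4 * N2 ^ 2) +
      (c1 * c4 * c2 ^ 2 * c3) * W * (N1 ^ 3 * N2 ^ 3) := by
    rw [hW]
    field_simp
    ring
  have hDD : D ≤ D ^ 2 := by
    rw [sq]
    exact le_mul_of_one_le_left hD0.le hD
  have hD2 : 1 ≤ D ^ 2 := hD.trans hDD
  have hc22 : c2 ≤ c2 ^ 2 := by
    rw [sq]
    exact le_mul_of_one_le_left hc20.le hc2
  have hc21 : 1 ≤ c2 ^ 2 := hc2.trans hc22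
  have hc14 : 0 < c1 * c4 := by positivity
  have hc0pos : 0 < c0 := by positivity
  -- V bounds everything
  set V : ℝ := c0 * (W * D ^ 2) with hV
  have hV0 : 0 ≤ V := by positivity
  have hVU : 5 * V ≤ U ^ 2 := by rw [hV]; linarith
  have f1 : (c1 * c4 * c2 * c3) * (W * D) ≤ V := by
    rw [hV]
    refine mul_le_mul ?_ (mul_le_mul_of_nonneg_left hDD hW0) (by positivity) hc0pos.le
    rw [hc0]
    exact mul_le_mul_of_nonneg_right (mul_le_mul_of_nonneg_left hc22 hc14.le) hc30.le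
  have f2 : (c1 * c4) * (W * D ^ 2) ≤ V := by
    rw [hV]
    refine mul_le_mul_of_nonneg_right ?_ (by positivity)
    rw [hc0]
    calc c1 * c4 = c1 * c4 * 1 * 1 := by ring
      _ ≤ c1 * c4 * c2 ^ 2 * c3 := mul_le_mul (mul_le_mul_of_nonneg_left hc21 hc14.le) hc3
          zero_le_one (by positivity)
  have f3 : (c1 * c4 * c3) * (W * D ^ 2) ≤ V := by
    rw [hV]
    refine mul_le_mul_of_nonneg_right ?_ (by positivity)
    rw [hc0]
    calc c1 * c4 * c3 = c1 * c4 * 1 * c3 := by ring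
      _ ≤ c1 * c4 * c2 ^ 2 * c3 :=
          mul_le_mul_of_nonneg_right (mul_le_mul_of_nonneg_left hc21 hc14.le) hc30.le
  have f4 : (c1 * c4 * c2 ^ 2) * W ≤ V := by
    rw [hV]
    refine mul_le_mul ?_ ?_ hW0 hc0pos.le
    · rw [hc0]
      exact le_mul_of_one_le_right (by positivity) hc3
    · exact le_mul_of_one_le_right hW0 hD2
  have f5 : (c1 * c4 * c2 ^ 2 * c3) * W ≤ V := by
    rw [hV]
    refine mul_le_mul_of_nonneg_left ?_ hc0pos.le
    exact le_mul_of_one_le_right hW0 hD2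
  have hNN : 1 ≤ N1 * N2 := one_le_mul_of_one_le_of_one_le hN1 hN2
  have hNNs : N1 * N2 ≤ (N1 * N2) ^ 2 := by
    rw [sq]
    exact le_mul_of_one_le_left (by positivity) hNN
  have hN44 : N1 ^ 4 * N2 ^ 4 = (N1 * N2) ^ 2 * (N1 * N2) ^ 2 := by ring
  have hXV : 5 * (V * X) ≤ (N1 * N2) ^ 2 := by
    calc 5 * (V * X) = (5 * V) * X := by ring
      _ ≤ U ^ 2 * X := mul_le_mul_of_nonneg_right hVU hX.le
      _ = X * U ^ 2 := by ring
      _ ≤ _ := h12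
  have g1 : (c1 * c4 * c2 * c3) * (W * D) * (X * (N1 * N2) ^ 2) ≤ N1 ^ 4 * N2 ^ 4 / 5 := by
    calc (c1 * c4 * c2 * c3) * (W * D) * (X * (N1 * N2) ^ 2) ≤ V * (X * (N1 * N2) ^ 2) :=
          mul_le_mul_of_nonneg_right f1 (by positivity)
      _ = (5 * (V * X)) * (N1 * N2) ^ 2 / 5 := by ring
      _ ≤ (N1 * N2) ^ 2 * (N1 * N2) ^ 2 / 5 :=
          div_le_div_of_nonneg_right (mul_le_mul_of_nonneg_right hXV (by positivity)) (by norm_num)
      _ = _ := by rw [hN44]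
  have g2 : (c1 * c4) * (W * D ^ 2) * (X * N1 ^ 2) ≤ N1 ^ 4 * N2 ^ 4 / 5 := by
    calc (c1 * c4) * (W * D ^ 2) * (X * N1 ^ 2) ≤ V * (X * N1 ^ 2) :=
          mul_le_mul_of_nonneg_right f2 (by positivity)
      _ = (5 * (V * X)) * N1 ^ 2 / 5 := by ring
      _ ≤ (N1 * N2) ^ 2 * (N1 * N2) ^ 2 / 5 := by
          refine div_le_div_of_nonneg_right ?_ (by norm_num)
          refine mul_le_mul hXV ?_ (by positivity) (by positivity)
          exact pow_le_pow_left₀ hN10.le (le_mul_of_one_le_right hN10.le hN2) 2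
      _ = _ := by rw [hN44]
  have g3 : (c1 * c4 * c3) * (W * D ^ 2) * (X * (N1 * N2)) ≤ N1 ^ 4 * N2 ^ 4 / 5 := by
    calc (c1 * c4 * c3) * (W * D ^ 2) * (X * (N1 * N2)) ≤ V * (X * (N1 * N2)) :=
          mul_le_mul_of_nonneg_right f3 (by positivity)
      _ = (5 * (V * X)) * (N1 * N2) / 5 := by ring
      _ ≤ (N1 * N2) ^ 2 * (N1 * N2) ^ 2 / 5 := by
          refine div_le_div_of_nonneg_right ?_ (by norm_num)
          exact mul_le_mul hXV hNNs (by positivity) (by positivity)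
      _ = _ := by rw [hN44]
  have hU1 : U ^ 2 ≤ N2 ^ 2 := pow_le_pow_left₀ hU0.le h2 2
  have hU2 : U ^ 2 ≤ N1 * N2 := by
    rw [sq]
    exact mul_le_mul h1 h2 hU0.le hN10.le
  have g4 : (c1 * c4 * c2 ^ 2) * W * (N1 ^ 4 * N2 ^ 2) ≤ N1 ^ 4 * N2 ^ 4 / 5 := by
    calc (c1 * c4 * c2 ^ 2) * W * (N1 ^ 4 * N2 ^ 2) ≤ V * (N1 ^ 4 * N2 ^ 2) :=
          mul_le_mul_of_nonneg_right f4 (by positivity)
      _ = (5 * V) * (N1 ^ 4 * N2 ^ 2) / 5 := by ring
      _ ≤ N2 ^ 2 * (N1 ^ 4 * N2 ^ 2) / 5 := by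
          refine div_le_div_of_nonneg_right ?_ (by norm_num)
          exact mul_le_mul_of_nonneg_right (hVU.trans hU1) (by positivity)
      _ = _ := by ring
  have g5 : (c1 * c4 * c2 ^ 2 * c3) * W * (N1 ^ 3 * N2 ^ 3) ≤ N1 ^ 4 * N2 ^ 4 / 5 := by
    calc (c1 * c4 * c2 ^ 2 * c3) * W * (N1 ^ 3 * N2 ^ 3) ≤ V * (N1 ^ 3 * N2 ^ 3) :=
          mul_le_mul_of_nonneg_right f5 (by positivity)
      _ = (5 * V) * (N1 ^ 3 * N2 ^ 3) / 5 := by ring
      _ ≤ (N1 * N2) * (N1 ^ 3 * N2 ^ 3) / 5 := by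
          refine div_le_div_of_nonneg_right ?_ (by norm_num)
          exact mul_le_mul_of_nonneg_right (hVU.trans hU2) (by positivity)
      _ = _ := by ring
  rw [e2] at e1
  linarith

/-- the bound for the collisions -/
theorem CB_num2 (X N1 N2 D t0 C f q r z c9 c5 Y S : ℝ) (hX : 0 < X) (hN1 : 0 < N1)
    (hN2 : 0 < N2) (hD : 0 < D) (ht : 0 < t0) (hC : 0 < C) (hf0 : 0 ≤ f) (hq0 : 0 ≤ q)
    (hr0 : 0 ≤ r) (hz0 : 0 ≤ z) (hS0 : 0 ≤ S) (hc9 : 0 < c9) (hc5 : 0 < c5) (h1 : Y ≤ z ^ 2 * S)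
    (h2 : S ≤ t0 * (r * f * q + (1 + r ^ 2 / X) * (f ^ 2 + f * q))) (hz : z ≤ c9 * D)
    (hr : r ≤ C * (N1 * N2) / D) (hf : f ≤ N1) (hq : q ≤ c5 * N2) :
    Y ≤ c9 ^ 2 * D ^ 2 * (t0 * ((C * (N1 * N2) / D) * N1 * (c5 * N2) +
      (1 + (C * (N1 * N2) / D) ^ 2 / X) * (N1 ^ 2 + N1 * (c5 * N2)))) := by
  refine h1.trans ?_
  refine mul_le_mul ?_ ?_ hS0 (by positivity)
  · rw [← mul_pow]
    exact pow_le_pow_left₀ hz0 hz 2
  · refine h2.trans ?_
    refine mul_le_mul_of_nonneg_left ?_ ht.le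
    refine add_le_add ?_ ?_
    · exact mul_le_mul (mul_le_mul hr hf hf0 (by positivity)) hq hq0 (by positivity)
    · refine mul_le_mul ?_ ?_ (by positivity) (by positivity)
      · refine add_le_add le_rfl (div_le_div_of_nonneg_right ?_ hX.le)
        exact pow_le_pow_left₀ hr0 hr 2
      · refine add_le_add (pow_le_pow_left₀ hf0 hf 2) ?_
        exact mul_le_mul hf hq hq0 hN1.le

theorem CB_num3 (N1 N2 m q c t : ℝ) (d : ℕ) (hN1 : 0 < N1) (hN2 : 0 < N2) (hq : 0 ≤ q)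
    (hm : N1 ≤ c * t ^ (2 * d) * m) (hπ : N1 ≤ q) :
    N1 ^ 4 * N2 ^ 4 ≤ (m * q * N2 ^ 2) ^ 2 * (c ^ 2 * t ^ (4 * d)) := by
  have h3 : N1 ^ 2 * N2 ^ 2 ≤ (c * t ^ (2 * d) * m) * q * N2 ^ 2 := by
    refine mul_le_mul_of_nonneg_right ?_ (by positivity)
    rw [sq]
    exact mul_le_mul hm hπ hN1.le (hN1.le.trans hm)
  calc N1 ^ 4 * N2 ^ 4 = (N1 ^ 2 * N2 ^ 2) ^ 2 := by ring
    _ ≤ ((c * t ^ (2 * d) * m) * q * N2 ^ 2) ^ 2 := pow_le_pow_left₀ (by positivity) h3 2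
    _ = _ := by ring

/-- sums over the units with value in `S` -/
theorem CB_units {p : ℕ} [Fact p.Prime] (S : Finset (ZMod p)) (f : ZMod p → ℝ) :
    ∑ m ∈ (Finset.univ : Finset (ZMod p)ˣ).filter (fun u : (ZMod p)ˣ => (u : ZMod p) ∈ S), f (m : ZMod p) =
      ∑ x ∈ S.erase 0, f x := by
  refine Finset.sum_bij (fun u _ => (u : ZMod p)) ?_ ?_ ?_ ?_
  · intro u hu
    rw [Finset.mem_filter] at hu
    exact Finset.mem_erase.2 ⟨u.ne_zero, hu.2⟩
  · intro u _ v _ h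
    exact Units.ext h
  · intro x hx
    rw [Finset.mem_erase] at hx
    exact ⟨Units.mk0 x hx.1, Finset.mem_filter.2 ⟨Finset.mem_univ _, hx.2⟩, rfl⟩
  · intro u _
    rfl

theorem CB_units_card {p : ℕ} [Fact p.Prime] (S : Finset (ZMod p)) :
    (((Finset.univ : Finset (ZMod p)ˣ).filter (fun u : (ZMod p)ˣ => (u : ZMod p) ∈ S)).card : ℝ) =
      ((S.erase 0).card : ℝ) := by
  have h := CB_units S (fun _ => (1 : ℝ))
  rw [Finset.sum_const, Finset.sum_const, nsmul_eq_mul, nsmul_eq_mul, mul_one, mul_one] at h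
  exact h

theorem CB_large (a c : ℝ) (ha : 0 < a) : ∃ n₀ : ℕ, ∀ n : ℕ, n₀ ≤ n → c ≤ (n : ℝ) ^ a := by
  have h := (tendsto_rpow_atTop ha).comp (tendsto_natCast_atTop_atTop (R := ℝ))
  exact Filter.eventually_atTop.1 (h.eventually_ge_atTop c)

/-- classes of `1, …, n` -/
theorem CB_classes {p : ℕ} [Fact p.Prime] (n : ℕ) (hn : n < p) :
    ((Finset.Icc 1 n).image (fun y : ℕ => (y : ZMod p))).card = n := by
  rw [Finset.card_image_of_injOn, Nat.card_Icc, Nat.add_sub_cancel]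
  intro x hx y hy hxy
  rw [Finset.coe_Icc, Set.mem_Icc] at hx hy
  have h := (ZMod.natCast_eq_natCast_iff' x y p).1 hxy
  rwa [Nat.mod_eq_of_lt (hx.2.trans_lt hn), Nat.mod_eq_of_lt (hy.2.trans_lt hn)] at h

theorem CB (hPKC : PKC_stmt) (hINT : INT_stmt) (hE3 : E3_stmt) (hRSZ : RSZ_stmt)
    (hCOL : COL_stmt) : CB_stmt := by
  intro d ε H hε hH
  set e0 : ℝ := min ε 1 with he0
  have he0pos : 0 < e0 := lt_min hε one_pos
  have he01 : e0 ≤ 1 := min_le_right _ _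
  have he0ε : e0 ≤ ε := min_le_left _ _
  set τ : ℝ := e0 / (16 * ((d : ℝ) + 1)) with hτ
  have hd0 : (0 : ℝ) ≤ d := Nat.cast_nonneg d
  have hτ0 : 0 < τ := by positivity
  have hτe : τ * ((16 * (d + 1) : ℕ) : ℝ) = e0 := by
    rw [hτ]; push_cast; field_simp
  obtain ⟨C, hC1, hC⟩ := hRSZ d
  obtain ⟨p1, hE⟩ := hE3 (d + d) τ (25 ^ d * H) hτ0
    (one_le_mul_of_one_le_of_one_le (one_le_pow₀ (by norm_num)) hH)
  obtain ⟨k, p2, δ, hk, hδ, key⟩ := Pool.Agent.helper82.Weil.asymp_three τ hτ0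
  set c0 : ℝ := (9 ^ (d + d)) ^ 2 * ((2 * 3 ^ d) ^ 2) * C ^ 2 * 5 ^ d with hc0
  have hc0pos : 0 < c0 := by positivity
  obtain ⟨p3, hp3⟩ := CB_large τ (3 + 3 ^ d + 5 * c0) hτ0
  obtain ⟨p4, hp4⟩ := CB_large δ (5 ^ d) hδ
  refine ⟨τ, δ, max (max p1 (p2 + 1)) (max p3 p4), hτ0, hδ, ?_⟩
  intro p _ hp P Q hP hQ hPH hQH hPε hQε hPQ hD χ hχ s α β hα hβ
  have hpp1 : p1 ≤ p := (le_max_left _ _).trans ((le_max_left _ _).trans hp)
  have hpp2 : p2 < p := (le_max_right p1 (p2 + 1)).trans ((le_max_left _ _).trans hp)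
  have hpp3 : p3 ≤ p := (le_max_left _ _).trans ((le_max_right _ _).trans hp)
  have hpp4 : p4 ≤ p := (le_max_right _ _).trans ((le_max_right _ _).trans hp)
  replace hp3 := hp3 p hpp3
  replace hp4 := hp4 p hpp4
  replace key := key p hpp2
  replace hE := hE p hpp1
  replace hC := hC p P Q hP hQ
  have hprime : p.Prime := Fact.out
  have hX1 : (1 : ℝ) < p := by exact_mod_cast hprime.one_lt
  set X : ℝ := (p : ℝ) with hX
  have hX0 : 0 < X := by linarith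
  set t0 : ℝ := X ^ τ with ht0
  have h3d : (1 : ℝ) ≤ 3 ^ d := one_le_pow₀ (by norm_num)
  have ht3 : 4 ≤ t0 := by linarith
  have ht00 : 0 < t0 := by linarith
  have ht01 : 1 ≤ t0 := by linarith
  have ht3d : 3 ^ d < t0 := by linarith
  have ht5 : 5 * c0 ≤ t0 := by linarith
  set U : ℝ := t0 ^ (16 * (d + 1)) with hU
  have hUe : X ^ e0 = U := by
    rw [hU, ht0, ← Real.rpow_natCast, ← Real.rpow_mul hX0.le, hτe]
  have hU1 : 1 ≤ U := one_le_pow₀ ht01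
  set N1 : ℝ := ((P 1).card : ℝ) with hN1
  set N2 : ℝ := ((Q 1).card : ℝ) with hN2
  set D : ℝ := ((P 1 ∩ Q 1).card : ℝ) with hDd
  have hUN1 : U ≤ N1 := by
    rw [← hUe]
    exact (Real.rpow_le_rpow_of_exponent_le hX1.le he0ε).trans hPε
  have hUN2 : U ≤ N2 := by
    rw [← hUe]
    exact (Real.rpow_le_rpow_of_exponent_le hX1.le he0ε).trans hQε
  have hN10 : 0 < N1 := by linarith
  have hN20 : 0 < N2 := by linarith
  have h12 : X * U ^ 2 ≤ (N1 * N2) ^ 2 := by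
    have h1 : X ^ (1 / 2 + e0) ≤ N1 * N2 :=
      (Real.rpow_le_rpow_of_exponent_le hX1.le (by linarith)).trans hPQ
    have h2 : (X ^ (1 / 2 + e0)) ^ 2 = X * U ^ 2 := by
      rw [← hUe, Real.rpow_add hX0, mul_pow, ← Real.sqrt_eq_rpow, Real.sq_sqrt hX0.le]
    rw [← h2]
    exact pow_le_pow_left₀ (Real.rpow_nonneg hX0.le _) h1 2
  have hINT' := hINT p d d P Q hP hQ
  have hD1 : 1 ≤ D := by
    have h := hINT'.1.card_pos (R := 1) zero_le_one
    rw [hDd]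
    exact_mod_cast h
  -- sizes
  set μ : ℝ := (t0 ^ 2)⁻¹ with hμ
  have ht2 : 1 ≤ t0 ^ 2 := one_le_pow₀ ht01
  have hμ0 : 0 < μ := by positivity
  have hμ1 : μ ≤ 1 := inv_le_one_of_one_le₀ ht2
  set f : ℝ := ((P μ).card : ℝ) with hf
  have hfN1 : f ≤ N1 := by
    rw [hf, hN1]
    exact_mod_cast Finset.card_le_card (hP.mono hμ1)
  have hN1f : N1 ≤ (3 ^ d * t0 ^ (2 * d)) * f := by
    have h := (hPKC.2.2 p d P hP 1 μ zero_le_one hμ0).1
    refine h.trans (mul_le_mul_of_nonneg_right ?_ (Nat.cast_nonneg _))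
    have h1 : 1 + 2 * 1 / μ ≤ 3 * t0 ^ 2 := by
      rw [hμ, div_inv_eq_mul]
      linarith
    calc (1 + 2 * 1 / μ) ^ d ≤ (3 * t0 ^ 2) ^ d := pow_le_pow_left₀ (by positivity) h1 d
      _ = _ := by rw [mul_pow, ← pow_mul]
  have hf2 : 2 ≤ f := by
    have h1 : 1 < f := by
      by_contra hcon
      have hf1 : f ≤ 1 := not_lt.1 hcon
      have h2 : N1 ≤ 3 ^ d * t0 ^ (2 * d) := by
        refine hN1f.trans ?_
        exact mul_le_of_le_one_right (by positivity) hf1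
      have h3 : 3 ^ d * t0 ^ (2 * d) < t0 * t0 ^ (2 * d) :=
        mul_lt_mul_of_pos_right ht3d (by positivity)
      have h4 : t0 * t0 ^ (2 * d) ≤ U := by
        rw [hU, ← pow_succ']
        exact pow_le_pow_right₀ ht01 (by omega)
      linarith
    rw [hf] at h1 ⊢
    exact_mod_cast h1
  set M : Finset (ZMod p)ˣ := (Finset.univ : Finset (ZMod p)ˣ).filter
    (fun u : (ZMod p)ˣ => (u : ZMod p) ∈ P μ) with hM
  have hMcard : (M.card : ℝ) = f - 1 := by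
    rw [hM, CB_units_card, Finset.card_erase_of_mem (hP.zero_mem hμ0.le),
      Nat.cast_sub (hP.card_pos hμ0.le), Nat.cast_one]
  have hMf : f ≤ 2 * M.card := by rw [hMcard]; linarith
  have hMpos : (0 : ℝ) < M.card := by rw [hMcard]; linarith
  have hmN1 : N1 ≤ (2 * 3 ^ d) * t0 ^ (2 * d) * M.card := by
    refine hN1f.trans ?_
    calc (3 ^ d * t0 ^ (2 * d)) * f ≤ (3 ^ d * t0 ^ (2 * d)) * (2 * M.card) :=
          mul_le_mul_of_nonneg_left hMf (by positivity)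
      _ = _ := by ring
  -- the set T
  set n : ℕ := ⌊2 * t0⌋₊ with hn
  have hn1 : (n : ℝ) ≤ 2 * t0 := Nat.floor_le (by positivity)
  have hn2 : 2 * t0 < n + 1 := Nat.lt_floor_add_one _
  have hUX : U ≤ X := by
    rw [← hUe]
    calc X ^ e0 ≤ X ^ (1 : ℝ) := Real.rpow_le_rpow_of_exponent_le hX1.le he01
      _ = X := Real.rpow_one X
  have h2t : 2 * t0 < t0 ^ 2 := by
    rw [sq]
    exact mul_lt_mul_of_pos_right (by linarith) ht00
  have hnp : n < p := by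
    have h1 : t0 ^ 2 ≤ U := by
      rw [hU]
      exact pow_le_pow_right₀ ht01 (by omega)
    have h2 : (n : ℝ) < p := by
      calc (n : ℝ) ≤ 2 * t0 := hn1
        _ < t0 ^ 2 := h2t
        _ ≤ X := h1.trans hUX
    exact_mod_cast h2
  set T : Finset (ZMod p) := (Finset.Icc 1 n).image (fun y : ℕ => (y : ZMod p)) with hT
  have hTcard : T.card = n := CB_classes (p := p) n hnp
  set B : Finset (ZMod p) := (Q 1).image (fun b => b + s) with hB
  have hBcard : B.card = (Q 1).card := Finset.card_image_of_injective _ (add_left_injective s)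
  -- the pair bound
  have habs : ∀ a ∈ P 1, ∀ m ∈ M, ∀ t ∈ T, a - (m : ZMod p) * t ∈ P 2 := by
    intro a ha m hm t ht
    rw [hM, Finset.mem_filter] at hm
    rw [hT, Finset.mem_image] at ht
    obtain ⟨y, hy, rfl⟩ := ht
    rw [Finset.mem_Icc] at hy
    have h1 := hP.nat_mul_mem hm.2 y
    have h2 : (y : ℝ) * μ ≤ 1 := by
      have h3 : (y : ℝ) ≤ t0 ^ 2 := by
        have h4 : (y : ℝ) ≤ n := by exact_mod_cast hy.2
        exact h4.trans (hn1.trans h2t.le)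
      rw [hμ]
      calc (y : ℝ) * (t0 ^ 2)⁻¹ ≤ t0 ^ 2 * (t0 ^ 2)⁻¹ :=
            mul_le_mul_of_nonneg_right h3 (by positivity)
        _ = 1 := mul_inv_cancel₀ (by positivity)
    have h5 := hP.sub_mem ha (hP.mono h2 h1)
    rw [mul_comm (m : ZMod p)]
    have h6 : (1 : ℝ) + 1 = 2 := by norm_num
    rw [h6] at h5
    exact h5
  have hpb := Pool.Agent.helper46.PY.pair_bound χ hχ (P 1) (P 2) T B M habs
    (fun b => β (b - s)) (fun b => hβ _) k hk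
  rw [ZMod.card] at hpb
  set Y : ℝ := ∑ z : ZMod p × ZMod p, (∑ t ∈ M, (Pool.Agent.helper46.PY.cnt (P 2) B (t • z) : ℝ)) ^ 2
    with hY
  have hY0 : 0 ≤ Y := Finset.sum_nonneg fun _ _ => sq_nonneg _
  -- collisions
  have hcol := hCOL p M (P 2) B (P 4 ∩ Q 4) (Q 2) (P 6 + Q 6) (by
      intro x hx x' hx' b hb b' hb' h
      rw [hB, Finset.mem_image] at hb hb'
      obtain ⟨c, hc, rfl⟩ := hb
      obtain ⟨c', hc', rfl⟩ := hb'
      rw [Finset.mem_inter]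
      constructor
      · have h1 := hP.sub_mem hx hx'
        have h2 : (2 : ℝ) + 2 = 4 := by norm_num
        rw [h2] at h1
        exact h1
      · have h1 := hQ.sub_mem hc' hc
        have h2 : x - x' = c' - c := by linear_combination h
        rw [h2]
        exact hQ.mono (by norm_num) h1) (by
      intro b hb b' hb'
      rw [hB, Finset.mem_image] at hb hb'
      obtain ⟨c, hc, rfl⟩ := hb
      obtain ⟨c', hc', rfl⟩ := hb'
      have h1 := hQ.sub_mem hc hc'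
      have h2 : (1 : ℝ) + 1 = 2 := by norm_num
      rw [h2] at h1
      have h3 : c + s - (c' + s) = c - c' := by ring
      rw [h3]
      exact h1) (by
      intro x hx x' hx' b hb b' hb'
      rw [hB, Finset.mem_image] at hb hb'
      obtain ⟨c, hc, rfl⟩ := hb
      obtain ⟨c', hc', rfl⟩ := hb'
      have h3 : x + (c + s) - (x' + (c' + s)) = (x - x') + (c - c') := by ring
      rw [h3]
      exact Finset.add_mem_add (hP.mono (by norm_num) (hP.sub_mem hx hx'))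
        (hQ.mono (by norm_num) (hQ.sub_mem hc hc')))
  rw [← hY] at hcol
  -- energy
  set r : ℝ := ((P 6 + Q 6).card : ℝ) with hr
  set q : ℝ := ((Q 2).card : ℝ) with hq
  have hq5 : q ≤ 5 ^ d * N2 := by
    have h := (hPKC.2.2 p d Q hQ 2 1 (by norm_num) one_pos).1
    have h1 : (1 : ℝ) + 2 * 2 / 1 = 5 := by norm_num
    rw [h1] at h
    exact h
  have hz9 : ((P 4 ∩ Q 4).card : ℝ) ≤ 9 ^ (d + d) * D := by
    have h := (hPKC.2.2 p (d + d) (fun R => P R ∩ Q R) hINT'.1 4 1 (by norm_num) one_pos).1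
    have h1 : (1 : ℝ) + 2 * 4 / 1 = 9 := by norm_num
    rw [h1] at h
    exact h
  have hp5 : ((P 2).card : ℝ) ≤ 5 ^ d * N1 := by
    have h := (hPKC.2.2 p d P hP 2 1 (by norm_num) one_pos).1
    have h1 : (1 : ℝ) + 2 * 2 / 1 = 5 := by norm_num
    rw [h1] at h
    exact h
  have henergy := hE P Q (fun R => P R + Q R) (hP.mono_dim (Nat.le_add_right d d))
    (hQ.mono_dim (Nat.le_add_right d d)) hINT'.2 μ 2 6 hμ0 (by norm_num) (by norm_num)
    (by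
      rw [← hf]
      calc f ^ 2 ≤ N1 ^ 2 := pow_le_pow_left₀ (by linarith) hfN1 2
        _ ≤ H * X := hPH
        _ ≤ 25 ^ d * H * X := by
            rw [mul_assoc]
            exact le_mul_of_one_le_left (by positivity) (one_le_pow₀ (by norm_num)))
    (by
      rw [← hq]
      calc q ^ 2 ≤ (5 ^ d * N2) ^ 2 := pow_le_pow_left₀ (Nat.cast_nonneg _) hq5 2
        _ = 25 ^ d * N2 ^ 2 := by
            rw [mul_pow, ← pow_mul, mul_comm d 2, pow_mul]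
            norm_num
        _ ≤ 25 ^ d * (H * X) := mul_le_mul_of_nonneg_left hQH (by positivity)
        _ = 25 ^ d * H * X := by ring)
  have hsum : ∑ m ∈ M, ∑ m' ∈ M, (rr (Q 2) ((m : ZMod p) / (m' : ZMod p)) : ℝ) *
      (rr (P 6 + Q 6) ((m : ZMod p) / (m' : ZMod p)) : ℝ) =
      ∑ x ∈ (P μ).erase 0, ∑ x' ∈ (P μ).erase 0,
        (rr (Q 2) (x / x') : ℝ) * (rr (P 6 + Q 6) (x / x') : ℝ) := by
    rw [hM, CB_units (P μ) (fun x => ∑ m' ∈ (Finset.univ : Finset (ZMod p)ˣ).filter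
      (fun u : (ZMod p)ˣ => (u : ZMod p) ∈ P μ), (rr (Q 2) (x / (m' : ZMod p)) : ℝ) *
      (rr (P 6 + Q 6) (x / (m' : ZMod p)) : ℝ))]
    refine Finset.sum_congr rfl fun x _ => ?_
    exact CB_units (P μ) (fun x' => (rr (Q 2) (x / x') : ℝ) * (rr (P 6 + Q 6) (x / x') : ℝ))
  rw [hsum] at hcol
  have hrD : r ≤ C * (N1 * N2) / D := by
    rw [le_div_iff₀ (by linarith)]
    exact hC.1
  have hC0 : 0 < C := by linarith
  have hr0 : 0 ≤ r := Nat.cast_nonneg _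
  have hq0 : 0 ≤ q := Nat.cast_nonneg _
  have hf0 : 0 ≤ f := Nat.cast_nonneg _
  have hD0 : 0 < D := by linarith
  have hYb : Y ≤ (9 ^ (d + d)) ^ 2 * D ^ 2 * (t0 * ((C * (N1 * N2) / D) * N1 * (5 ^ d * N2) +
      (1 + (C * (N1 * N2) / D) ^ 2 / X) * (N1 ^ 2 + N1 * (5 ^ d * N2)))) :=
    CB_num2 X N1 N2 D t0 C f q r ((P 4 ∩ Q 4).card : ℝ) (9 ^ (d + d)) (5 ^ d) Y _ hX0 hN10 hN20
      hD0 ht00 hC0 hf0 hq0 hr0 (Nat.cast_nonneg _)
      (Finset.sum_nonneg fun _ _ => Finset.sum_nonneg fun _ _ =>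
        mul_nonneg (Nat.cast_nonneg _) (Nat.cast_nonneg _)) (pow_pos (by norm_num) _)
      (pow_pos (by norm_num) _) hcol henergy hz9 hrD hfN1 hq5
  have hcond : 5 * ((9 ^ (d + d)) ^ 2 * ((2 * 3 ^ d) ^ 2) * C ^ 2 * 5 ^ d) *
      (t0 * t0 * t0 ^ (4 * d) * D ^ 2) ≤ U ^ 2 := by
    rw [← hc0]
    have htt : 0 ≤ t0 * t0 * t0 ^ (4 * d) := by positivity
    calc 5 * c0 * (t0 * t0 * t0 ^ (4 * d) * D ^ 2)
        ≤ t0 * (t0 * t0 * t0 ^ (4 * d) * t0 ^ 2) := by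
          refine mul_le_mul ht5 ?_ (mul_nonneg htt (sq_nonneg _)) ht00.le
          refine mul_le_mul_of_nonneg_left ?_ htt
          exact pow_le_pow_left₀ hD0.le hD 2
      _ = t0 ^ (4 * d + 5) := by ring
      _ ≤ t0 ^ (2 * (16 * (d + 1))) := pow_le_pow_right₀ ht01 (by omega)
      _ = U ^ 2 := by rw [hU, ← pow_mul, mul_comm 2]
  have hnum := CB_num X U N1 N2 D t0 t0 (t0 ^ (4 * d)) ((9 ^ (d + d)) ^ 2) C (5 ^ d)
    ((2 * 3 ^ d) ^ 2) Y hX0 hU1 hUN1 hUN2 h12 hD1 ht00.le ht00.le (by positivity)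
    (one_le_pow₀ (one_le_pow₀ (by norm_num))) hC1 (one_le_pow₀ (by norm_num))
    (one_le_pow₀ (by linarith)) hYb hcond
  -- the condition of asymp_three
  have hπ : N1 ≤ ((P 2).card : ℝ) := by
    rw [hN1]
    exact_mod_cast Finset.card_le_card (hP.mono (by norm_num))
  have hfin : Y * X ^ (1 + τ) ≤ ((M.card : ℝ) * (P 2).card * N2 ^ 2) ^ 2 := by
    have h1 : X ^ (1 + τ) = X * t0 := by rw [Real.rpow_add hX0, Real.rpow_one]
    rw [h1]
    have h2 := CB_num3 N1 N2 (M.card : ℝ) ((P 2).card : ℝ) (2 * 3 ^ d) t0 d hN10 hN20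
      (Nat.cast_nonneg _) hmN1 hπ
    have h4 : 0 < (2 * 3 ^ d) ^ 2 * t0 ^ (4 * d) := by positivity
    exact le_of_mul_le_mul_right (hnum.trans h2) h4
  have hTt : X ^ τ < (T.card : ℝ) := by
    rw [hTcard]
    linarith
  set S : ZMod p → ℂ := fun a => ∑ b ∈ Q 1, β b * χ (a + b + s) with hS
  have hSB : ∀ a, ∑ b ∈ B, β (b - s) * χ (a + b) = S a := by
    intro a
    rw [hB, Finset.sum_image (fun x _ y _ h => add_left_injective s h), hS]
    refine Finset.sum_congr rfl fun b _ => ?_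
    rw [add_sub_cancel_right, ← add_assoc]
  set EE : ℝ := ∑ a ∈ P 1, ‖S a‖ ^ 2 with hEE
  have hEE0 : 0 ≤ EE := Finset.sum_nonneg fun _ _ => sq_nonneg _
  have hEEb : EE ≤ (X ^ (-δ) * N2) ^ 2 * N1 := by
    refine key (M.card : ℝ) (T.card : ℝ) N1 ((P 2).card : ℝ) N2 Y EE hMpos hTt hN10.le
      (Nat.cast_nonneg _) ?_ hN20.le hY0 hEE0 ?_ hfin
    · exact hp5.trans (mul_le_mul_of_nonneg_right hp4 hN10.le)
    · have h1 : EE = ∑ a ∈ P 1, ‖∑ b ∈ B, β (b - s) * χ (a + b)‖ ^ 2 := by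
        rw [hEE]
        refine Finset.sum_congr rfl fun a _ => ?_
        rw [hSB]
      rw [h1, hN2, ← hBcard]
      exact hpb
  -- Cauchy-Schwarz
  have hfirst : ‖∑ a ∈ P 1, ∑ b ∈ Q 1, α a * β b * χ (a + b + s)‖ ≤ ∑ a ∈ P 1, ‖S a‖ := by
    refine (norm_sum_le _ _).trans (Finset.sum_le_sum fun a _ => ?_)
    have h1 : ∑ b ∈ Q 1, α a * β b * χ (a + b + s) = α a * S a := by
      rw [hS, Finset.mul_sum]
      refine Finset.sum_congr rfl fun b _ => ?_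
      ring
    rw [h1, norm_mul]
    exact mul_le_of_le_one_left (norm_nonneg _) (hα a)
  refine hfirst.trans ?_
  have hXδ : 0 ≤ X ^ (-δ) := Real.rpow_nonneg hX0.le _
  have hS0 : 0 ≤ ∑ a ∈ P 1, ‖S a‖ := Finset.sum_nonneg fun _ _ => norm_nonneg _
  have hR0 : 0 ≤ X ^ (-δ) * (N1 * N2) := mul_nonneg hXδ (mul_nonneg hN10.le hN20.le)
  refine (pow_le_pow_iff_left₀ hS0 hR0 two_ne_zero).1 ?_
  calc (∑ a ∈ P 1, ‖S a‖) ^ 2 ≤ ((P 1).card : ℝ) * ∑ a ∈ P 1, ‖S a‖ ^ 2 := sq_sum_le_card_mul_sum_sq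
    _ ≤ N1 * ((X ^ (-δ) * N2) ^ 2 * N1) := mul_le_mul_of_nonneg_left hEEb hN10.le
    _ = _ := by ring

end Pool.Agent.helper85.PG
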