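import Pool.Agent.helper33.PG.Spec

namespace Pool.Agent.PG

open Polynomial Finset

theorem EXQ_pow (N n k e : ℕ)
    (h1 : e ≤ N / n) (h2 : (k * 2 ^ n + 1) ^ (e - 1) ≤
      2 ^ (N % n + 2) * (2 ^ e * (2 * (N / n)).choose e) ^ 2 * k ^ (N / n)) (he : 1 ≤ e) :
    (k * 2 ^ n + 1) ^ e ≤ 2 ^ (N % n + 2 + 6 * (N / n)) * k ^ (N / n) * (k * 2 ^ n + 1) := by
  have h3 : (2 ^ e * (2 * (N / n)).choose e) ^ 2 ≤ 2 ^ (6 * (N / n)) := by
    calc (2 ^ e * (2 * (N / n)).choose e) ^ 2 ≤ (2 ^ (N / n) * 2 ^ (2 * (N / n))) ^ 2 := by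
          apply Nat.pow_le_pow_left
          exact Nat.mul_le_mul (Nat.pow_le_pow_right (by norm_num) h1) (Nat.choose_le_two_pow _ _)
      _ = 2 ^ (6 * (N / n)) := by
          rw [← pow_add, ← pow_mul]
          congr 1
          ring
  have h4 : (k * 2 ^ n + 1) ^ e = (k * 2 ^ n + 1) ^ (e - 1) * (k * 2 ^ n + 1) := by
    rw [← pow_succ]
    congr 1
    omega
  rw [h4]
  apply Nat.mul_le_mul_right
  refine h2.trans ?_
  rw [pow_add 2 (N % n + 2)]
  exact Nat.mul_le_mul_right _ (Nat.mul_le_mul_left _ h3)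

theorem EXQ (hGEN : GEN_stmt) (hSHP : SHP_stmt) : EXQ_stmt := by
  intro N s D e x hN hs hsN hD hDe hx hDx
  have hs0 : (0 : ℝ) < s := by exact_mod_cast hs
  have hN0 : (0 : ℝ) < N := by exact_mod_cast hN
  have hD0 : (0 : ℝ) < D := by exact_mod_cast (lt_trans Nat.zero_lt_one hD)
  have h6 : (0 : ℝ) ≤ 6 / s := by positivity
  rcases Nat.eq_zero_or_pos e with he | he
  · subst he
    rw [pow_zero]
    exact Real.one_le_rpow one_le_two (by positivity)
  have hD1 : D ∣ 2 ^ N + 1 := (dvd_pow_self D he.ne').trans hDe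
  obtain ⟨k, n, hk, hn, hDk⟩ := hSHP N s D hN hsN hD hD1
  by_cases hx1 : 1 ≤ x
  · have h1 : D ^ e ≤ 2 ^ N + 1 := Nat.le_of_dvd (by positivity) hDe
    have h2 : D ^ e ≤ 2 ^ (N + 1) := by
      rw [pow_succ]
      have := Nat.one_le_two_pow (n := N)
      omega
    have h3 : (D : ℝ) ^ e ≤ 2 ^ (N + 1) := by exact_mod_cast h2
    refine h3.trans ?_
    rw [← Real.rpow_natCast 2 (N + 1)]
    apply Real.rpow_le_rpow_of_exponent_le one_le_two
    push_cast
    have h5 : (1 : ℝ) ≤ x + 6 / s := by linarith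
    have h7 : (N : ℝ) ≤ (x + 6 / s) * N := by nlinarith
    linarith
  · have hx2 : x < 1 := not_le.mp hx1
    have hk0 : 0 < k := hk.pos
    have hn0 : 0 < n := by omega
    rw [hDk] at hDe
    obtain ⟨hq, hp⟩ := hGEN N n k e hk0 hn0 he hDe
    have hp2 := EXQ_pow N n k e hq hp he
    rw [← hDk] at hp2
    set q := N / n with hqdef
    set r := N % n with hrdef
    have hqn : q * n ≤ N := Nat.div_mul_le_self N n
    have hrn : r < n := Nat.mod_lt N hn0
    set d := Real.logb 2 D with hd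
    set κ := Real.logb 2 k with hκ
    have hk1 : (0 : ℝ) < k := by exact_mod_cast hk0
    have hκ0 : 0 ≤ κ := Real.logb_nonneg one_lt_two (by exact_mod_cast hk0)
    have hdx : d ≤ (1 + x) * s := by
      rw [hd, Real.logb_le_iff_le_rpow one_lt_two hD0]
      exact hDx
    have hκd : κ + n ≤ d := by
      have h1 : ((k : ℝ) * 2 ^ n) ≤ D := by
        rw [hDk]
        push_cast
        linarith
      have h2 : Real.logb 2 ((k : ℝ) * 2 ^ n) = κ + n := by
        rw [Real.logb_mul hk1.ne' (by positivity), Real.logb_pow, Real.logb_self_eq_one one_lt_two, mul_one]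
      rw [← h2, hd]
      exact Real.logb_le_logb_of_le one_lt_two (by positivity) h1
    have hlog : (e : ℝ) * d ≤ (r + 2 + 6 * q) + q * κ + d := by
      have h1 : ((D : ℝ) ^ e) ≤ 2 ^ (r + 2 + 6 * q) * (k : ℝ) ^ q * D := by exact_mod_cast hp2
      have h2 := Real.logb_le_logb_of_le one_lt_two (by positivity) h1
      rw [Real.logb_pow, Real.logb_mul (by positivity) hD0.ne', Real.logb_mul (by positivity) (by positivity),
        Real.logb_pow, Real.logb_pow, Real.logb_self_eq_one one_lt_two, mul_one] at h2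
      push_cast at h2
      exact h2
    have hsn : (s : ℝ) ≤ n := by exact_mod_cast (by omega : s ≤ n)
    have hqn' : (q : ℝ) * n ≤ N := by exact_mod_cast hqn
    have hrn' : (r : ℝ) ≤ n := by exact_mod_cast hrn.le
    have hq0 : (0 : ℝ) ≤ q := Nat.cast_nonneg _
    have hn2 : (n : ℝ) ≤ 2 * s := by nlinarith
    have hd2 : d ≤ 2 * s := by nlinarith
    have hqs : 6 * (q : ℝ) ≤ 6 / s * N := by
      rw [div_mul_eq_mul_div, le_div_iff₀ hs0]
      nlinarith
    have hqκ : (q : ℝ) * κ ≤ x * N := by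
      have h1 : κ ≤ x * n := by nlinarith
      calc (q : ℝ) * κ ≤ q * (x * n) := mul_le_mul_of_nonneg_left h1 hq0
        _ = x * (q * n) := by ring
        _ ≤ x * N := mul_le_mul_of_nonneg_left hqn' hx
    have hfin : (e : ℝ) * d ≤ (x + 6 / s) * N + 4 * s + 2 := by
      have : (x + 6 / s) * (N : ℝ) = x * N + 6 / s * N := by ring
      rw [this]
      linarith
    have hDd : (D : ℝ) ^ e = 2 ^ ((e : ℝ) * d) := by
      rw [mul_comm, Real.rpow_mul (by norm_num), hd, Real.rpow_logb (by norm_num) (by norm_num) hD0,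
        Real.rpow_natCast]
    rw [hDd]
    exact Real.rpow_le_rpow_of_exponent_le one_le_two hfin

end Pool.Agent.PG
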